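import Pool.Agent.Y479.PG.Area
import Pool.Agent.Y479.PG.D2

/-!
# Gaussian surface area of periodic sets: the answer in every dimension

Periodic half spaces minimise Gaussian surface area among periodic sets of `ℝⁿ` exactly when
`n ≤ 2`.
-/

set_option autoImplicit false

open scoped ENNReal

namespace Pool.Agent.Results.MP_b76267_pr.EveryDimension

open Pool.Agent.H655R3.Per Pool.Agent.Y479.PG

/-- (1) In every dimension `n ≥ 3` there is a closed periodic set `Ω ⊆ ℝⁿ` with `C^∞` boundary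
such that, for every choice of signs `ε`, the periodic half space with signs `ε` (which is a
periodic set of finite Gaussian surface area) has strictly larger Gaussian surface area than `Ω`.
(2) In the dimensions one and two every periodic set (smooth or not) has Gaussian surface area at
least that of every periodic half space.
(3) Hence, for `n ≥ 1`, the inequality of the problem holds for all periodic sets of `ℝⁿ` with
`C^∞` boundary and all periodic half spaces of `ℝⁿ` if and only if `n ≤ 2`. -/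
theorem result :
    (∀ n : ℕ, 3 ≤ n → ∃ Ω : Set (E n), IsClosed Ω ∧ IsPeriodic Ω ∧
      IsSmoothHypersurface (frontier Ω) ∧
      ∀ ε : Fin n → ℝ, (∀ i, ε i = 1 ∨ ε i = -1) →
        IsPeriodic (halfSpace ε) ∧ gaussianSurfaceArea (halfSpace ε) < ∞ ∧
        gaussianSurfaceArea Ω < gaussianSurfaceArea (halfSpace ε)) ∧
    (∀ n : ℕ, 1 ≤ n → n ≤ 2 → ∀ Ω : Set (E n), IsPeriodic Ω →
      ∀ ε : Fin n → ℝ, (∀ i, ε i = 1 ∨ ε i = -1) →
        gaussianSurfaceArea (halfSpace ε) ≤ gaussianSurfaceArea Ω) ∧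
    (∀ n : ℕ, 1 ≤ n →
      ((∀ Ω : Set (E n), IsPeriodic Ω → IsSmoothHypersurface (frontier Ω) →
        ∀ ε : Fin n → ℝ, (∀ i, ε i = 1 ∨ ε i = -1) →
          gaussianSurfaceArea (halfSpace ε) ≤ gaussianSurfaceArea Ω) ↔ n ≤ 2)) := by
  have h1 : ∀ n : ℕ, 3 ≤ n → ∃ Ω : Set (E n), IsClosed Ω ∧ IsPeriodic Ω ∧
      IsSmoothHypersurface (frontier Ω) ∧
      ∀ ε : Fin n → ℝ, (∀ i, ε i = 1 ∨ ε i = -1) →
        IsPeriodic (halfSpace ε) ∧ gaussianSurfaceArea (halfSpace ε) < ∞ ∧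
        gaussianSurfaceArea Ω < gaussianSurfaceArea (halfSpace ε) := by
    intro n hn
    obtain ⟨q, rfl⟩ : ∃ q, n = q + 1 + 1 := ⟨n - 2, by omega⟩
    exact exists_set q (by omega)
  have h2 : ∀ n : ℕ, 1 ≤ n → n ≤ 2 → ∀ Ω : Set (E n), IsPeriodic Ω →
      ∀ ε : Fin n → ℝ, (∀ i, ε i = 1 ∨ ε i = -1) →
        gaussianSurfaceArea (halfSpace ε) ≤ gaussianSurfaceArea Ω := by
    intro n hn1 hn2 Ω hΩ ε hε
    obtain rfl | rfl : n = 1 ∨ n = 2 := by omega
    · exact dim_one Ω hΩ ε hε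
    · exact dim_two hΩ ε hε
  refine ⟨h1, h2, fun n hn => ⟨fun h => ?_, fun hn2 Ω hΩ _ ε hε => h2 n hn hn2 Ω hΩ ε hε⟩⟩
  by_contra hc
  obtain ⟨Ω, -, hp, hs, hlt⟩ := h1 n (by omega)
  have h3 := h Ω hp hs (fun _ => 1) (fun _ => Or.inl rfl)
  have h4 := (hlt (fun _ => 1) (fun _ => Or.inl rfl)).2.2
  exact absurd h3 (not_le.2 h4)

end Pool.Agent.Results.MP_b76267_pr.EveryDimension
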